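import Mathlib
import Pool.Agent.V11311.ER.X1

set_option autoImplicit false

/-!
The longest blocks of typical trajectories with a parity word in a given factorial language.
-/

namespace Pool.Agent.Results.MP_2b866c_nt.BlocksInLanguages

open Filter Topology

/-- the `3x+1` function -/
def T (n : ℕ) : ℕ := if n % 2 = 0 then n / 2 else (3 * n + 1) / 2

/-- the positive integers with the property `P` have the natural density `δ` -/
def HasDensity (P : ℕ → Prop) (δ : ℝ) : Prop :=
  Tendsto (fun N : ℕ => ({n : ℕ | 1 ≤ n ∧ n ≤ N ∧ P n}.ncard : ℝ) / N) atTop (𝓝 δ)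

/-- the word of the parities of `m, T m, ..., T^(w-1) m` -/
def word : ℕ → ℕ → List ℕ
  | 0, _ => []
  | w + 1, m => (m % 2) :: word w (T m)

/-- all words of length `w` in the letters `0` and `1` -/
def words : ℕ → Finset (List ℕ)
  | 0 => {[]}
  | w + 1 => (words w).image (fun v => 0 :: v) ∪ (words w).image (fun v => 1 :: v)

/-- the number of the words of length `w` in the letters `0` and `1` which belong to `L` -/
noncomputable def num (L : Set (List ℕ)) (w : ℕ) : ℕ := {v | v ∈ words w ∧ v ∈ L}.ncard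

/-- `L` contains all factors (subwords of consecutive letters) of its words -/
def Factorial (L : Set (List ℕ)) : Prop := ∀ u v : List ℕ, v ∈ L → u <:+: v → u ∈ L

/-- no block of at least `u` consecutive terms of the trajectory of `n` before the first term `≤ n ^ κ`
has its parity word in `L` -/
def NoBlock (L : Set (List ℕ)) (κ u : ℝ) (n : ℕ) : Prop :=
  ∀ s w : ℕ, u ≤ w → (∀ j, j < s + w → (n : ℝ) ^ κ < T^[j] n) → word w (T^[s] n) ∉ L

/-- some block of at least `u` consecutive terms of the trajectory of `n` before the first term `≤ n ^ κ`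
has its parity word in `L` -/
def SomeBlock (L : Set (List ℕ)) (κ u : ℝ) (n : ℕ) : Prop :=
  ∃ s w : ℕ, u ≤ w ∧ (∀ j, j < s + w → (n : ℝ) ^ κ < T^[j] n) ∧ word w (T^[s] n) ∈ L

open Pool.Agent.V11311.RC Pool.Agent.V11311.FP Pool.Agent.V11311.ER

theorem conv {P : ℕ → Prop} {δ : ℝ} (h : HasD P δ) : HasDensity P δ := by
  classical
  unfold HasDensity
  unfold HasD at h
  refine h.congr fun N => ?_
  congr 1
  unfold cN
  rw [← Set.ncard_coe_finset]
  congr 2
  ext n
  rw [Finset.mem_coe, Finset.mem_filter, Finset.mem_Icc]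
  constructor
  · rintro ⟨⟨h1, h2⟩, h3⟩; exact ⟨h1, h2, h3⟩
  · rintro ⟨h1, h2, h3⟩; exact ⟨⟨h1, h2⟩, h3⟩

theorem T_eq : Pool.Agent.Helper894.Collatz.T = T := by
  funext n
  unfold Pool.Agent.Helper894.Collatz.T T
  rfl

theorem word_eq (w : ℕ) : ∀ m, wd w m = word w m := by
  induction w with
  | zero => intro m; rfl
  | succ w ih =>
    intro m
    simp only [wd, word]
    rw [ih, T_eq]

theorem words_eq (w : ℕ) : Pool.Agent.V11311.ER.words w = words w := by
  induction w with
  | zero => rfl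
  | succ w ih =>
    simp only [Pool.Agent.V11311.ER.words, words]
    rw [ih]

theorem num_eq (L : Set (List ℕ)) (w : ℕ) : nw L w = num L w := by
  classical
  unfold nw num
  rw [← Set.ncard_coe_finset]
  congr 1
  ext v
  rw [Finset.mem_coe, Finset.mem_filter, words_eq]
  exact Iff.rfl

/-- **the longest blocks with parity words in a language of entropy `h`** -/
theorem result (L : Set (List ℕ)) (hL : Factorial L) (hne : ∀ w, 0 < num L w)
    (hp : ∃ w, ∃ v ∈ words w, v ∉ L) :
    ∃ h : ℝ, 0 ≤ h ∧ h < Real.log 2 ∧ Tendsto (fun w : ℕ => Real.log (num L w) / w) atTop (𝓝 h) ∧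
      ∀ ε κ : ℝ, 0 < ε → ε < 1 → 0 < κ → κ < 1 →
        HasDensity (fun n => NoBlock L κ ((1 + ε) / (Real.log 2 - h) * Real.log (Real.log n)) n ∧
          SomeBlock L κ ((1 - ε) / (Real.log 2 - h) * Real.log (Real.log n)) n) 1 := by
  have hne' : ∀ w, 0 < nw L w := fun w => by rw [num_eq]; exact hne w
  have hp' : ∃ w, ∃ v ∈ Pool.Agent.V11311.ER.words w, v ∉ L := by
    obtain ⟨w, v, h1, h2⟩ := hp
    exact ⟨w, v, by rw [words_eq]; exact h1, h2⟩
  obtain ⟨h, h0, h1, h2, h3⟩ := entropy hL hne' hp'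
  refine ⟨h, h0, h1, ?_, fun ε κ hε hε1 hκ hκ1 => ?_⟩
  · simpa only [num_eq] using h2
  · refine conv (HasD.congr (lang_law hL h2 hne' h1 h3 hε hε1 hκ hκ1) fun n _ => ?_)
    unfold LoL UpL NoBlock SomeBlock
    simp only [word_eq, T_eq]

end Pool.Agent.Results.MP_2b866c_nt.BlocksInLanguages
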