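import Pool.Agent.V11201.SH.F
import Pool.Agent.V11201.SH.M3

set_option autoImplicit false

/-! Heights of odd integers under the `3x+1` map in short intervals: for almost all odd `m` almost all
odd integers of `(m, m + 2H]` have the same height as `m`, at all scales; averages and the law of the
heights in short intervals. -/

namespace Pool.Agent.Results.MP_2b866c_nt.ShortIntervals

open Filter Topology

/-- `C(m) = (3m+1)/2^e(m)`, `2^e(m)` the largest power of `2` dividing `3m+1` -/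
def C (m : ℕ) : ℕ := (3 * m + 1) / 2 ^ padicValNat 2 (3 * m + 1)

/-- the height `h(m)`, the least `k ≥ 1` with `C^k(m) = 1`, and `⊤ = ∞` if there is none -/
noncomputable def height (m : ℕ) : ℕ∞ := sInf {k : ℕ∞ | ∃ j : ℕ, 1 ≤ j ∧ C^[j] m = 1 ∧ k = j}

/-- among the odd positive integers, those with the property `P` have the natural density `δ` -/
def HasOddDensity (P : ℕ → Prop) (δ : ℝ) : Prop :=
  Tendsto (fun N : ℕ => 2 / (N : ℝ) * ({m : ℕ | m ≤ N ∧ Odd m ∧ P m}.ncard : ℝ)) atTop (𝓝 δ)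

/-- the number of the `1 ≤ j ≤ H` with `h(m + 2 j) ≠ h(m)` -/
noncomputable def changes (m H : ℕ) : ℕ := {j : ℕ | 1 ≤ j ∧ j ≤ H ∧ height (m + 2 * j) ≠ height m}.ncard

/-- the average of `f(h(m + 2)), f(h(m + 4)), ..., f(h(m + 2 H))` -/
noncomputable def average (f : ℕ∞ → ℝ) (m H : ℕ) : ℝ :=
  (∑ j ∈ Finset.Icc 1 H, f (height (m + 2 * j))) / H

/-- The heights `h(m + 2), ..., h(m + 2 H)` are equal to `h(m)` up to `ε H` exceptions; so the average of
every function with values in `[0, 1]` of these heights is within `ε` of its value at `h(m)`. -/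
def Steady (ε : ℝ) (m H : ℕ) : Prop :=
  (changes m H : ℝ) ≤ ε * H ∧
    ∀ f : ℕ∞ → ℝ, (∀ h, 0 ≤ f h ∧ f h ≤ 1) → |average f m H - f (height m)| ≤ ε

/-- `g n = n ^ o(1)`: `log (1 + g n) / log n` tends to `0` -/
def SubPower (g : ℕ → ℕ) : Prop := Tendsto (fun n : ℕ => Real.log (1 + g n) / Real.log n) atTop (𝓝 0)

/-- `2 / log (16/9) * log m + x * log 2 * √(2 log m / (log (4/3))^3)` -/
noncomputable def bound (x : ℝ) (m : ℕ) : ℝ :=
  2 / Real.log (16 / 9) * Real.log m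
    + x * (Real.log 2 * Real.sqrt (2 * Real.log m / Real.log (4 / 3) ^ 3))

/-- The distribution function of the standard normal law. -/
noncomputable def Phi (x : ℝ) : ℝ :=
  ProbabilityTheory.cdf (ProbabilityTheory.gaussianReal 0 1) x

/-- the number of the `1 ≤ j ≤ H` with finite `h(m + 2 j) ≤ b` -/
noncomputable def low (b : ℝ) (m H : ℕ) : ℕ :=
  {j : ℕ | 1 ≤ j ∧ j ≤ H ∧ ∃ h : ℕ, height (m + 2 * j) = h ∧ (h : ℝ) ≤ b}.ncard

open Pool.Agent.H499R2.ND in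
theorem height_eq {m h : ℕ} (hh : IsHt m h) : height m = h := by
  unfold height
  apply le_antisymm
  · exact sInf_le ⟨h, hh.1, hh.2.1, rfl⟩
  · refine le_sInf ?_
    rintro k ⟨j, hj, hj1, rfl⟩
    have : h ≤ j := by
      by_contra hlt
      exact hh.2.2 j hj (by omega) hj1
    exact_mod_cast this

open Pool.Agent.H499R2.ND in
theorem exists_isHt {m j : ℕ} (hj : 1 ≤ j) (h : C^[j] m = 1) : ∃ h, IsHt m h := by
  classical
  have hex : ∃ k, 1 ≤ k ∧ C^[k] m = 1 := ⟨j, hj, h⟩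
  refine ⟨Nat.find hex, (Nat.find_spec hex).1, (Nat.find_spec hex).2, fun k hk hlt hk1 => ?_⟩
  exact Nat.find_min hex hlt ⟨hk, hk1⟩

open Pool.Agent.H499R2.ND in
theorem height_top {m : ℕ} (hh : ¬ ∃ h, IsHt m h) : height m = ⊤ := by
  unfold height
  have : {k : ℕ∞ | ∃ j : ℕ, 1 ≤ j ∧ C^[j] m = 1 ∧ k = j} = ∅ := by
    rw [Set.eq_empty_iff_forall_notMem]
    rintro k ⟨j, hj, hj1, _⟩
    exact hh (exists_isHt hj hj1)
  rw [this, sInf_empty]

open Pool.Agent.H499R2.ND in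
theorem height_lt_top_iff {m : ℕ} : height m ≠ ⊤ ↔ ∃ h, IsHt m h := by
  constructor
  · intro h
    by_contra hcon
    exact h (height_top hcon)
  · rintro ⟨h, hh⟩
    rw [height_eq hh]
    exact ENat.natCast_ne_top h

open Pool.Agent.H499R2.ND in
theorem height_iff {m h : ℕ} : height m = h ↔ IsHt m h := by
  constructor
  · intro hm
    obtain ⟨h', hh'⟩ := height_lt_top_iff.1 (show height m ≠ ⊤ by rw [hm]; exact ENat.natCast_ne_top h)
    have h1 := height_eq hh'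
    rw [hm] at h1
    have h2 : h = h' := by exact_mod_cast h1
    rw [h2]; exact hh'
  · exact height_eq

theorem height_congr {m n : ℕ} (h : ∀ k : ℕ, Pool.Agent.H499R2.ND.IsHt m k ↔ Pool.Agent.H499R2.ND.IsHt n k) :
    height m = height n := by
  by_cases hn : ∃ k, Pool.Agent.H499R2.ND.IsHt n k
  · obtain ⟨k, hk⟩ := hn
    rw [height_eq hk, height_eq ((h k).2 hk)]
  · rw [height_top hn, height_top fun ⟨k, hk⟩ => hn ⟨k, (h k).1 hk⟩]

theorem bound_eq (x : ℝ) (m : ℕ) : bound x m = Pool.Agent.H499R2.HL.bo x (Real.log m) := by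
  unfold bound Pool.Agent.H499R2.HL.bo
  have : Real.log (16 / 9) = 2 * Real.log (4 / 3) := by
    rw [show (16 : ℝ) / 9 = (4 / 3) ^ 2 by norm_num, Real.log_pow]; push_cast; ring
  rw [this]
  have : Real.log (4 / 3) ≠ 0 := (Real.log_pos (by norm_num)).ne'
  congr 2
  field_simp

/-- odd densities and densities -/
theorem odd_density_of {P Q : ℕ → Prop} {δ : ℝ} (h : Pool.Agent.H499R2.CO.HD Q (δ / 2))
    (hPQ : ∀ n, 1 ≤ n → (Q n ↔ n % 2 = 1 ∧ P n)) : HasOddDensity P δ := by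
  unfold HasOddDensity
  have h1 := h.const_mul 2
  rw [mul_div_cancel₀ δ (by norm_num : (2 : ℝ) ≠ 0)] at h1
  refine h1.congr fun N => ?_
  have e : {m : ℕ | 1 ≤ m ∧ m ≤ N ∧ Q m} = {m : ℕ | m ≤ N ∧ Odd m ∧ P m} := by
    ext m
    constructor
    · rintro ⟨g1, g2, g3⟩
      have g4 := (hPQ m g1).1 g3
      exact ⟨g2, Nat.odd_iff.2 g4.1, g4.2⟩
    · rintro ⟨g2, g3, g4⟩
      exact ⟨g3.pos, g2, (hPQ m g3.pos).2 ⟨Nat.odd_iff.1 g3, g4⟩⟩
  rw [e]
  ring

/-- the relation -/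
def R (n j : ℕ) : Prop := n % 2 = 1 ∧ height (n + 2 * j) ≠ height n

open Pool.Agent.V11201.SH in
theorem R_same {n j : ℕ} (hj : 1 ≤ j) (h : R n j) : ¬ Same (n + 2 * j) n := by
  intro hs
  have h1 := h.1
  exact h.2 (height_congr (ht_same (by omega) h1 (by omega) hs))

open Pool.Agent.V11201.SH in
theorem rate : ∃ A : ℝ, 0 < A ∧ Rate R A := by
  obtain ⟨A, hA, h⟩ := same_rate
  exact ⟨2 * A, by positivity, Rate_mono (Rate_two hA h) fun n j _ hj h1 => R_same hj h1⟩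

open Pool.Agent.V11201.SH in
theorem bd_R {n : ℕ} (hn : n % 2 = 1) (H : ℕ) : bd R n H = changes n H := by
  unfold bd changes R
  congr 1
  ext j
  constructor
  · rintro ⟨h1, h2, _, h3⟩; exact ⟨h1, h2, h3⟩
  · rintro ⟨h1, h2, h3⟩; exact ⟨h1, h2, hn, h3⟩

open Pool.Agent.V11201.SH in
theorem steady_of {ε : ℝ} {m H : ℕ} (hH : 1 ≤ H) (h : (changes m H : ℝ) ≤ ε * H) : Steady ε m H := by
  refine ⟨h, fun f hf => ?_⟩
  unfold average
  apply avg_close hH (a := fun j => f (height (m + 2 * j))) (fun j => hf _) (hf _)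
    (B := {j | height (m + 2 * j) ≠ height m})
  · intro j _ _ hj
    have : height (m + 2 * j) = height m := by
      by_contra hcon
      exact hj hcon
    simp only [this]
  · exact h

theorem sets_eq (N : ℕ) (P : ℕ → Prop) :
    {m : ℕ | m ≤ N ∧ Odd m ∧ P m} = {m : ℕ | 1 ≤ m ∧ m ≤ N ∧ (m % 2 = 1 ∧ P m)} := by
  ext m
  constructor
  · rintro ⟨h1, h2, h3⟩; exact ⟨h2.pos, h1, Nat.odd_iff.1 h2, h3⟩
  · rintro ⟨h1, h2, h3, h4⟩; exact ⟨h2, Nat.odd_iff.2 h3, h4⟩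

theorem low_ge {b : ℝ} {m H : ℕ} (h : ∃ h : ℕ, height m = h ∧ (h : ℝ) ≤ b) :
    H ≤ low b m H + changes m H := by
  have hsub : ((Finset.Icc 1 H : Finset ℕ) : Set ℕ) ⊆
      {j : ℕ | 1 ≤ j ∧ j ≤ H ∧ ∃ h : ℕ, height (m + 2 * j) = h ∧ (h : ℝ) ≤ b} ∪
      {j : ℕ | 1 ≤ j ∧ j ≤ H ∧ height (m + 2 * j) ≠ height m} := by
    intro j hj
    rw [Finset.coe_Icc] at hj
    by_cases h1 : height (m + 2 * j) = height m
    · left
      exact ⟨hj.1, hj.2, by rw [h1]; exact h⟩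
    · exact Or.inr ⟨hj.1, hj.2, h1⟩
  have h1 := (Set.ncard_le_ncard hsub ((Pool.Agent.V11201.SH.fin_le _ H).union
    (Pool.Agent.V11201.SH.fin_le _ H))).trans (Set.ncard_union_le _ _)
  rw [Set.ncard_coe_finset, Nat.card_Icc, Nat.add_sub_cancel] at h1
  exact h1

theorem low_le {b : ℝ} {m H : ℕ} (h : ¬ ∃ h : ℕ, height m = h ∧ (h : ℝ) ≤ b) :
    low b m H ≤ changes m H := by
  unfold low changes
  apply Set.ncard_le_ncard
  · rintro j ⟨h1, h2, h3⟩
    refine ⟨h1, h2, fun h4 => h ?_⟩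
    rw [h4] at h3
    exact h3
  · exact Pool.Agent.V11201.SH.fin_le _ H

theorem changes_le {n : ℕ} (hn : n % 2 = 1) (H : ℕ) : changes n H ≤ Pool.Agent.V11201.SH.sb 2 n H := by
  unfold changes Pool.Agent.V11201.SH.sb
  apply Set.ncard_le_ncard
  · rintro j ⟨h1, h2, h3⟩
    exact ⟨h1, h2, R_same h1 ⟨hn, h3⟩⟩
  · exact Pool.Agent.V11201.SH.fin_le _ H

open Pool.Agent.V11201.SH in
/-- THE HEIGHTS IN SHORT INTERVALS.
(1) For at most `(A / κ) √((1 + log (1 + H)) log log N / log N) N` of the odd `m ≤ N` more than `κ H` of the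
`H` odd integers after `m` have a height different from `h(m)` (finite or infinite).
(2) For every `ε > 0` there is `θ > 0` such that for large `N`, for all but `ε N` of the odd `m ≤ N` and for
ALL `1 ≤ H ≤ N ^ θ` the heights of the `H` odd integers after `m` are steady.
(3) Let `g n = n ^ o(1)`. For almost all odd `m` this is so for all `1 ≤ H ≤ g m`.
(4) The law of the heights in short intervals: for the proportion `δ Phi x` of the odd `m` almost all of the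
`H` odd integers after `m` have a height at most `bound x m`, for the others almost none, for all
`1 ≤ H ≤ g m`. -/
theorem result :
    (∃ A : ℝ, 0 < A ∧ ∀ N : ℕ, 16 ≤ N → ∀ (H : ℕ) (κ : ℝ), 0 < κ →
      ({m : ℕ | m ≤ N ∧ Odd m ∧ κ * H < changes m H}.ncard : ℝ) ≤
        A / κ * √ ((1 + Real.log (1 + H)) * (Real.log (Real.log N) / Real.log N)) * N) ∧
    (∀ ε : ℝ, 0 < ε → ∃ θ : ℝ, 0 < θ ∧ ∃ N₀ : ℕ, ∀ N ≥ N₀,
      ({m : ℕ | m ≤ N ∧ Odd m ∧ ¬ ∀ H : ℕ, 1 ≤ H → (H : ℝ) ≤ (N : ℝ) ^ θ → Steady ε m H}.ncard : ℝ) ≤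
        ε * N) ∧
    (∀ g : ℕ → ℕ, SubPower g → ∀ ε : ℝ, 0 < ε →
      HasOddDensity (fun m => ∀ H : ℕ, 1 ≤ H → H ≤ g m → Steady ε m H) 1) ∧
    ∃ δ : ℝ, 0 < δ ∧ δ ≤ 1 ∧ (δ = 1 ↔ ∀ m : ℕ, Odd m → height m ≠ ⊤) ∧
      ∀ g : ℕ → ℕ, SubPower g → ∀ ε : ℝ, 0 < ε → ∀ x : ℝ,
        HasOddDensity (fun m => (∃ h : ℕ, height m = h ∧ (h : ℝ) ≤ bound x m) ∧
          ∀ H : ℕ, 1 ≤ H → H ≤ g m → (1 - ε) * H ≤ low (bound x m) m H) (δ * Phi x) ∧
        HasOddDensity (fun m => (¬ ∃ h : ℕ, height m = h ∧ (h : ℝ) ≤ bound x m) ∧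
          ∀ H : ℕ, 1 ≤ H → H ≤ g m → (low (bound x m) m H : ℝ) ≤ ε * H) (1 - δ * Phi x) := by
  obtain ⟨A, hA, hR⟩ := rate
  obtain ⟨δ, h0, h1, h2, h3, h4⟩ := Pool.Agent.H499R2.HL.law_ht
  have hodd : Pool.Agent.H499R2.CO.HD (fun n => n % 2 = 1) (1 / 2) := Pool.Agent.H499R2.ND.odd_density
  refine ⟨⟨A, hA, fun N hN H κ hκ => ?_⟩, fun ε hε => ?_, fun g hg ε hε => ?_, δ, h0, h1, ?_,
    fun g hg ε hε x => ?_⟩
  · refine le_trans ?_ (rate_scale hA hR hN H hκ)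
    rw [sets_eq]
    exact_mod_cast Set.ncard_le_ncard (by
      rintro n ⟨b1, b2, b3, b4⟩
      refine ⟨b1, b2, ?_⟩
      rw [bd_R b3]
      exact b4) (fin_le _ N)
  · obtain ⟨θ, hθ, N0, h⟩ := same_max 2 hε
    refine ⟨θ, hθ, N0, fun N hN => le_trans ?_ (h N hN)⟩
    rw [sets_eq]
    exact_mod_cast Set.ncard_le_ncard (by
      rintro n ⟨b1, b2, b3, b4⟩
      push Not at b4
      obtain ⟨H, d1, d2, d3⟩ := b4
      refine ⟨b1, b2, H, d1, d2, ?_⟩
      by_contra h5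
      apply d3
      apply steady_of d1
      have h6 : (changes n H : ℝ) ≤ sb 2 n H := by exact_mod_cast changes_le b3 H
      linarith [not_lt.1 h5]) (fin_le _ N)
  · refine odd_density_of (Q := fun n => n % 2 = 1 ∧ ∀ H : ℕ, 1 ≤ H → H ≤ g n → Steady ε n H)
      ?_ (P := fun m => ∀ H : ℕ, 1 ≤ H → H ≤ g m → Steady ε m H) (fun n _ => Iff.rfl)
    refine Pool.Agent.H499R2.CO.HD_congr (same_dens 2 hg hε) hodd (fun n _ hn => ?_)
    refine ⟨fun h => ⟨h, fun H hH1 hH2 => steady_of hH1 ?_⟩, fun h => h.1⟩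
    have h6 : (changes n H : ℝ) ≤ sb 2 n H := by exact_mod_cast changes_le h H
    linarith [hn H hH1 hH2]
  · rw [h2]
    exact forall_congr' fun m => forall_congr' fun _ => height_lt_top_iff.symm
  · have hlaw := (h4 1 0 le_rfl).2 x
    have hP : Pool.Agent.H499R2.CO.HD (fun n => n % 2 = 1 ∧ ∃ h : ℕ, height n = h ∧ (h : ℝ) ≤ bound x n)
        (δ * Phi x / 2) := by
      have e : δ / ((1 : ℕ) : ℝ) * Pool.Agent.H499R2.ND.Phi x / 2 = δ * Phi x / 2 := by
        unfold Phi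
        rw [← Pool.Agent.H499R2.ND.phi_cdf]
        push_cast
        ring
      rw [e] at hlaw
      refine Pool.Agent.H499R2.LT.Dn_iff (fun n _ => and_congr_right fun _ => exists_congr fun h => ?_) hlaw
      rw [height_iff, bound_eq]
      constructor
      · rintro ⟨h1, h2, _⟩; exact ⟨h1, h2⟩
      · rintro ⟨h1, h2⟩; exact ⟨h1, h2, by simp [Int.ModEq]⟩
    have hN : Pool.Agent.H499R2.CO.HD (fun n => n % 2 = 1 ∧ ¬ ∃ h : ℕ, height n = h ∧ (h : ℝ) ≤ bound x n)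
        ((1 - δ * Phi x) / 2) := by
      have h5 := HD_diff hodd hP (fun n _ h => h.1)
      have e : (1 : ℝ) / 2 - δ * Phi x / 2 = (1 - δ * Phi x) / 2 := by ring
      rw [e] at h5
      refine Pool.Agent.H499R2.CO.HD_congr (Pool.Agent.H499R2.HL.HD_large 0) h5 (fun n _ _ => ?_)
      constructor
      · rintro ⟨a1, a2⟩; exact ⟨a1, fun a3 => a2 ⟨a1, a3⟩⟩
      · rintro ⟨a1, a2⟩; exact ⟨a1, fun a3 => a2 a3.2⟩
    constructor
    · refine odd_density_of (Q := fun n => n % 2 = 1 ∧ ((∃ h : ℕ, height n = h ∧ (h : ℝ) ≤ bound x n) ∧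
        ∀ H : ℕ, 1 ≤ H → H ≤ g n → (1 - ε) * H ≤ low (bound x n) n H)) ?_ (fun n _ => Iff.rfl)
      refine Pool.Agent.H499R2.CO.HD_congr (same_dens 2 hg hε) hP (fun n _ hn => ?_)
      constructor
      · rintro ⟨a1, a2⟩
        refine ⟨a1, a2, fun H hH1 hH2 => ?_⟩
        have h6 := low_ge (H := H) a2
        have h7 : (H : ℝ) ≤ low (bound x n) n H + changes n H := by exact_mod_cast h6
        have h8 := hn H hH1 hH2
        have h9 : (changes n H : ℝ) ≤ sb 2 n H := by exact_mod_cast changes_le a1 H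
        linarith
      · rintro ⟨a1, a2, _⟩; exact ⟨a1, a2⟩
    · refine odd_density_of (Q := fun n => n % 2 = 1 ∧ ((¬ ∃ h : ℕ, height n = h ∧ (h : ℝ) ≤ bound x n) ∧
        ∀ H : ℕ, 1 ≤ H → H ≤ g n → (low (bound x n) n H : ℝ) ≤ ε * H)) ?_ (fun n _ => Iff.rfl)
      refine Pool.Agent.H499R2.CO.HD_congr (same_dens 2 hg hε) hN (fun n _ hn => ?_)
      constructor
      · rintro ⟨a1, a2⟩
        refine ⟨a1, a2, fun H hH1 hH2 => ?_⟩
        have h6 : (low (bound x n) n H : ℝ) ≤ changes n H := by exact_mod_cast low_le (H := H) a2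
        have h8 := hn H hH1 hH2
        have h9 : (changes n H : ℝ) ≤ sb 2 n H := by exact_mod_cast changes_le a1 H
        linarith
      · rintro ⟨a1, a2, _⟩; exact ⟨a1, a2⟩

end Pool.Agent.Results.MP_2b866c_nt.ShortIntervals
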