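import Pool.Agent.Y927.GP.M2
import Pool.Agent.V11113.CT.Traj2
import Pool.Agent.V11113.MR.BilFam

/-!
# Heights of the `3x+1` map in thin families of integers: the local form of the average order

The families consist of the integers `n = z + u i`, where `z` is an arbitrary integer with `|z| ≤ m ^ B` and the `u i` are the
least residues modulo an arbitrary large integer `m` of a family with exponential sums `O(#s m ^ (-ω))`, with an arbitrarily
small `ω > 0` (`Small`). Examples (part (2)): the values `x · Q y + f₁(x) + f₂(y)` modulo a prime `p` at the pairs of vectors of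
two arbitrary sets with `#A #A' ≥ p ^ (d + 2 ω)`; for `d = 1` this contains the products of the elements of two arbitrary sets
with `#A #A' ≥ p ^ (1 + 2 ω)` and the multiplicative subgroups of order `p ^ (1 / 2 + ω)`. Nothing else is assumed about the
family; it may have as few as about `m ^ (2 ω)` different members.

For all but a proportion `m ^ (-δ)` of the members `n`, if `v = f n` is positive and odd (`f` a nonconstant integer polynomial),
there is a term `w ≤ v ^ (1 - η)` of the `C`-orbit of `v` with `h(v) - h(w) = (2 / log (16 / 9) + O(ε)) log (v / w)`: the height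
decreases by the conjectured amount when the trajectory goes down to a power of `v`.
-/

set_option autoImplicit false

namespace Pool.Agent.Results.MP_2b866c_nt.ThinFamilies

open Finset Filter Polynomial Pool.Agent.Y927.GP Matrix

/-- The map `C`. -/
def C (m : ℕ) : ℕ := (3 * m + 1) / 2 ^ padicValNat 2 (3 * m + 1)

/-- the height `h(m)`, the least `k ≥ 1` with `C^k(m) = 1`, and `⊤ = ∞` if there is none -/
noncomputable def height (m : ℕ) : ℕ∞ := sInf {k : ℕ∞ | ∃ j : ℕ, 1 ≤ j ∧ C^[j] m = 1 ∧ k = j}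

/-- The exponential sums over the family `u i ∈ ℤ / m`, `i ∈ s`, at all nonzero frequencies are at most
`#s m ^ (-ω)`. (`ZMod.stdAddChar` is the character `e(x / m)`.) -/
def Small (m : ℕ) [NeZero m] (ω : ℝ) {ι : Type} (s : Finset ι) (u : ι → ZMod m) : Prop :=
  ∀ b : ZMod m, b ≠ 0 → ‖∑ i ∈ s, (ZMod.stdAddChar (b * u i) : ℂ)‖ ≤ s.card * (m : ℝ) ^ (-ω)

open Classical in
/-- The number of the members `i` of the family for which the integer `n i` does not have the property `P`. -/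
noncomputable def exceptions {ι : Type} (s : Finset ι) (n : ι → ℤ) (P : ℤ → Prop) : ℕ :=
  (s.filter (fun i => ¬ P (n i))).card

theorem exceptions_le {ι : Type} {s : Finset ι} {n : ι → ℤ} {P : ℤ → Prop} {X : ℝ}
    (h : ∀ A ⊆ s, (∀ i ∈ A, ¬ P (n i)) → (A.card : ℝ) ≤ X) : (exceptions s n P : ℝ) ≤ X := by
  classical
  unfold exceptions
  exact h _ (filter_subset _ _) (fun S hS => (mem_filter.1 hS).2)

/-- the accelerated map -/
def T (n : ℕ) : ℕ := if n % 2 = 0 then n / 2 else (3 * n + 1) / 2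

theorem T_cast (n : ℕ) : ((T n : ℕ) : ℤ) = Mo.T 2 3 (fun _ => -1) (n : ℤ) := by
  unfold T Mo.T
  push_cast
  split_ifs with h1 h2 h2 <;> omega

theorem iter_cast (n : ℕ) (k : ℕ) : ((T^[k] n : ℕ) : ℤ) = (Mo.T 2 3 (fun _ => -1))^[k] (n : ℤ) := by
  induction k generalizing n with
  | zero => rfl
  | succ k ih =>
    rw [Function.iterate_succ_apply, Function.iterate_succ_apply, ih, T_cast]

theorem C_of {w x r : ℕ} (hr : 2 ^ r * x = 3 * w + 1) (hx : x % 2 = 1) : C w = x := by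
  unfold C
  have h2 : Fact (Nat.Prime 2) := ⟨Nat.prime_two⟩
  rw [← hr, padicValNat.mul (by positivity) (by omega), padicValNat.prime_pow,
    padicValNat.eq_zero_of_not_dvd (by omega : ¬ 2 ∣ x), add_zero, Nat.mul_div_cancel_left _ (by positivity)]

theorem C_one : C 1 = 1 := C_of (r := 2) (by norm_num) (by norm_num)

theorem C_iter_one (j : ℕ) : C^[j] 1 = 1 := Function.iterate_fixed C_one j

/-- the last odd term of the accelerated orbit up to time `k` -/
theorem track (v : ℕ) (hv : v % 2 = 1) (k : ℕ) : ∃ i j w : ℕ, i ≤ k ∧ w = T^[i] v ∧ w = C^[j] v ∧ w % 2 = 1 ∧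
    3 ^ j * v ≤ 2 ^ i * w ∧ 2 ^ i * w + 2 ^ i ≤ 3 ^ j * v + 3 ^ i ∧
    (i = k ∨ (i < k ∧ T^[k] v % 2 = 0 ∧ 2 ^ (k - i) * T^[k] v = 3 * w + 1)) := by
  induction k with
  | zero => exact ⟨0, 0, v, le_refl _, rfl, rfl, hv, by simp, by simp, Or.inl rfl⟩
  | succ k ih =>
    obtain ⟨i, j, w, hik, hwi, hwj, hw, hlo, hup, hor⟩ := ih
    obtain ⟨x, hx⟩ : ∃ x, x = T^[k + 1] v := ⟨_, rfl⟩
    -- `2 ^ (k + 1 - i) x = 3 w + 1`
    have hkey : 2 ^ (k + 1 - i) * x = 3 * w + 1 := by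
      rcases hor with h | ⟨h1, h2, h3⟩
      · subst h
        rw [hx, Function.iterate_succ_apply', ← hwi]
        have e : i + 1 - i = 1 := by omega
        rw [e, pow_one]
        unfold T
        rw [if_neg (by omega)]
        omega
      · rw [hx, Function.iterate_succ_apply']
        obtain ⟨y, hy⟩ : ∃ y, y = T^[k] v := ⟨_, rfl⟩
        rw [← hy] at h2 h3 ⊢
        have e : k + 1 - i = (k - i) + 1 := by omega
        rw [e, pow_succ, mul_assoc]
        have e2 : 2 * T y = y := by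
          unfold T
          rw [if_pos h2]
          omega
        rw [e2]
        exact h3
    have hik1 : i < k + 1 := by omega
    by_cases hodd : x % 2 = 1
    · refine ⟨k + 1, j + 1, x, le_refl _, hx, ?_, hodd, ?_, ?_, Or.inl rfl⟩
      · rw [Function.iterate_succ_apply', ← hwj]
        exact (C_of hkey hodd).symm
      · have e1 : 2 ^ (k + 1) * x = 2 ^ i * (3 * w + 1) := by
          rw [← hkey, ← mul_assoc, ← pow_add]
          congr 2
          omega
        have e6 : 2 ^ i * (3 * w + 1) = 3 * (2 ^ i * w) + 2 ^ i := by ring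
        have e7 : 3 ^ (j + 1) * v = 3 * (3 ^ j * v) := by ring
        rw [e1, e6, e7]
        exact (Nat.mul_le_mul_left 3 hlo).trans (Nat.le_add_right _ _)
      · have e1 : 2 ^ (k + 1) * x = 2 ^ i * (3 * w + 1) := by
          rw [← hkey, ← mul_assoc, ← pow_add]
          congr 2
          omega
        have e2 : 3 ^ (i + 1) + 2 ^ (k + 1) ≤ 3 ^ (k + 1) + 2 ^ (i + 1) := by
          obtain ⟨r, hr⟩ : ∃ r, k + 1 = (i + 1) + r := ⟨k - i, by omega⟩
          rw [hr, pow_add 2 (i + 1) r, pow_add 3 (i + 1) r]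
          have a1 : (2 : ℕ) ^ (i + 1) ≤ 3 ^ (i + 1) := Nat.pow_le_pow_left (by norm_num) _
          have a2 : (2 : ℕ) ^ r ≤ 3 ^ r := Nat.pow_le_pow_left (by norm_num) _
          have a3 : 1 ≤ (2 : ℕ) ^ r := Nat.one_le_two_pow
          obtain ⟨P, hP⟩ : ∃ P, P = (2 : ℕ) ^ (i + 1) := ⟨_, rfl⟩
          obtain ⟨Q, hQ⟩ : ∃ Q, Q = (3 : ℕ) ^ (i + 1) := ⟨_, rfl⟩
          obtain ⟨R, hR⟩ : ∃ R, R = (2 : ℕ) ^ r := ⟨_, rfl⟩
          obtain ⟨S, hS⟩ : ∃ S, S = (3 : ℕ) ^ r := ⟨_, rfl⟩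
          rw [← hP, ← hQ] at a1
          rw [← hR, ← hS] at a2
          rw [← hR] at a3
          rw [← hP, ← hQ, ← hR, ← hS]
          obtain ⟨d, rfl⟩ : ∃ d, Q = P + d := ⟨Q - P, by omega⟩
          obtain ⟨e, rfl⟩ : ∃ e, S = R + e := ⟨S - R, by omega⟩
          obtain ⟨g, rfl⟩ : ∃ g, R = g + 1 := ⟨R - 1, by omega⟩
          nlinarith [Nat.zero_le (P * e), Nat.zero_le (d * e), Nat.zero_le (d * g)]
        rw [e1]
        have e3 : (3 : ℕ) ^ (i + 1) = 3 * 3 ^ i := by ring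
        have e4 : (2 : ℕ) ^ (i + 1) = 2 * 2 ^ i := by ring
        have e5 : (3 : ℕ) ^ (j + 1) = 3 * 3 ^ j := by ring
        have e6 : 2 ^ i * (3 * w + 1) = 3 * (2 ^ i * w) + 2 ^ i := by ring
        rw [e3, e4] at e2
        rw [e5, e6]
        have e7 : 3 * 3 ^ j * v = 3 * (3 ^ j * v) := by ring
        rw [e7]
        omega
    · exact ⟨i, j, w, by omega, hwi, hwj, hw, hlo, hup, Or.inr ⟨hik1, by rw [← hx]; omega, by rw [← hx]; exact hkey⟩⟩

theorem height_eq {v j w : ℕ} (hw : w = C^[j] v) (hw1 : w ≠ 1) : height v = (j : ℕ∞) + height w := by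
  apply le_antisymm
  · rcases eq_or_ne (height w) ⊤ with h | h
    · rw [h]
      simp
    · have hne : {k : ℕ∞ | ∃ i : ℕ, 1 ≤ i ∧ C^[i] w = 1 ∧ k = i}.Nonempty := by
        by_contra hcon
        rw [Set.not_nonempty_iff_eq_empty] at hcon
        apply h
        unfold height
        rw [hcon, sInf_empty]
      obtain ⟨i, hi0, hi1, hi2⟩ := csInf_mem hne
      have h1 : height w = i := hi2
      rw [h1]
      apply sInf_le
      refine ⟨j + i, by omega, ?_, by push_cast; rfl⟩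
      rw [add_comm, Function.iterate_add_apply, ← hw]
      exact hi1
  · apply le_sInf
    rintro k ⟨i, hi0, hi1, rfl⟩
    have hij : j < i := by
      by_contra hcon
      apply hw1
      have e : j = (j - i) + i := by omega
      rw [hw, e, Function.iterate_add_apply, hi1, C_iter_one]
    have h1 : height w ≤ ((i - j : ℕ) : ℕ∞) := by
      apply sInf_le
      refine ⟨i - j, by omega, ?_, rfl⟩
      rw [hw, ← Function.iterate_add_apply]
      have e : i - j + j = i := by omega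
      rw [e]
      exact hi1
    calc (j : ℕ∞) + height w ≤ (j : ℕ∞) + ((i - j : ℕ) : ℕ∞) := by gcongr
      _ = ((j + (i - j) : ℕ) : ℕ∞) := by push_cast; rfl
      _ = (i : ℕ∞) := by
          congr 1
          omega

/-- the numbers: `ct`, `log v`, `log w`, ... -/
theorem numbers {l2 l3 a ct ε ε₀ lv lw i j k x : ℝ} (hl2' : l2 ≤ 1) (hl3 : 1 ≤ l3) (ha : a = l2 - l3 / 2)
    (ha0 : 0 < a) (hε₀ : 0 < ε₀) (hε₀1 : ε₀ ≤ 1) (hε : ε = ε₀ * a ^ 2 / 20) (hct : 20 / (ε₀ * a) ≤ ct)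
    (hk : ct ≤ (k + 1) * l2) (hki : k * l2 - ct * ε - k * a ≤ 2 * l2 + (i * l2 + ct * ε - i * a))
    (hi0 : 0 ≤ i) (hik : i ≤ k)
    (hlo : lv - i * a - ct * ε ≤ lw) (hup : lw ≤ lv - i * a + ct * ε)
    (hj1 : j * l3 + lv ≤ i * l2 + lw) (hj2 : i * l2 + lw ≤ l2 + (j * l3 + lv)) (hx : x = lv - lw) :
    a / 2 * ct ≤ x ∧ |j - x / (2 * a)| ≤ ε₀ * x := by
  have hct0 : 0 < ct := lt_of_lt_of_le (by positivity) hct
  have hct1 : 20 ≤ ct * (ε₀ * a) := by
    rwa [div_le_iff₀ (by positivity)] at hct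
  have hE : ct * ε = (ct * (ε₀ * a)) * a / 20 := by rw [hε]; ring
  obtain ⟨e, he⟩ : ∃ e, e = ct * ε := ⟨_, rfl⟩
  rw [← he] at hki hlo hup hE
  obtain ⟨g, hg⟩ : ∃ g, g = ct * (ε₀ * a) := ⟨_, rfl⟩
  rw [← hg] at hct1 hE
  -- `g ≤ ct a`
  have hg1 : g ≤ ct * a := by
    rw [hg]
    have : ε₀ * a ≤ 1 * a := mul_le_mul_of_nonneg_right hε₀1 ha0.le
    nlinarith
  have hg0 : 0 < g := by linarith
  have he0 : 0 ≤ e := by rw [hE]; positivity
  have heg : e ≤ g / 40 := by
    rw [hE]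
    nlinarith
  -- `(k - i) l3 / 2 ≤ 2 l2 + 2 e`
  have h1 : (k - i) * (l3 / 2) ≤ 2 * l2 + 2 * e := by
    have : (k - i) * (l3 / 2) = (k - i) * (l2 - a) := by rw [ha]; ring
    rw [this]
    linarith
  have h2 : k - i ≤ 4 + 4 * e := by
    have h3 : (k - i) * (1 / 2) ≤ (k - i) * (l3 / 2) := mul_le_mul_of_nonneg_left (by linarith) (by linarith)
    linarith
  have h4 : ct - 1 ≤ k := by
    have : (k + 1) * l2 ≤ (k + 1) * 1 := mul_le_mul_of_nonneg_left hl2' (by linarith)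
    linarith
  have h5 : ct - 5 - 4 * e ≤ i := by linarith
  have h6 : i * a ≥ ct * a - 5 * a - 4 * (e * a) := by nlinarith
  have h7 : e * a ≤ e / 2 := by nlinarith
  have hxl : ct * a - 5 / 2 - 3 * e ≤ x := by
    rw [hx]
    linarith
  have hx1 : a / 2 * ct ≤ x := by linarith
  refine ⟨hx1, ?_⟩
  have hxg : g / 2 ≤ x := by linarith
  -- `j` against `i / 2`
  have hj1' : (j - i / 2) * l3 ≤ e := by
    have : (j - i / 2) * l3 = j * l3 - i * (l2 - a) := by rw [ha]; ring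
    rw [this]
    linarith
  have hj2' : -(e + l2) ≤ (j - i / 2) * l3 := by
    have : (j - i / 2) * l3 = j * l3 - i * (l2 - a) := by rw [ha]; ring
    rw [this]
    linarith
  have hj : |j - i / 2| ≤ e + 1 := by
    have h8 : |j - i / 2| * l3 ≤ e + 1 := by
      have h7 : |j - i / 2| * l3 = |(j - i / 2) * l3| := by rw [abs_mul, abs_of_pos (by linarith : 0 < l3)]
      rw [h7, abs_le]
      constructor <;> linarith
    have h9 : |j - i / 2| * 1 ≤ |j - i / 2| * l3 := mul_le_mul_of_nonneg_left hl3 (abs_nonneg _)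
    linarith
  have hx2 : |i / 2 - x / (2 * a)| ≤ e / (2 * a) := by
    have h8 : i / 2 - x / (2 * a) = (i * a - x) / (2 * a) := by
      field_simp
    rw [h8, abs_div, abs_of_pos (by positivity : 0 < 2 * a)]
    apply div_le_div_of_nonneg_right _ (by positivity)
    rw [hx, abs_le]
    constructor <;> linarith
  have h10 : e / (2 * a) = g / 40 := by
    rw [hE]
    field_simp
    ring
  have h11 : |j - x / (2 * a)| ≤ |j - i / 2| + |i / 2 - x / (2 * a)| := by
    have := abs_add_le (j - i / 2) (i / 2 - x / (2 * a))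
    rwa [sub_add_sub_cancel] at this
  -- `e + 1 + g / 40 ≤ g / 10`
  have h12 : g ≤ ct * a * ε₀ := by rw [hg]; exact le_of_eq (by ring)
  have h13 : g / 2 ≤ ε₀ * x := by
    have h14 : ε₀ * (a / 2 * ct) ≤ ε₀ * x := mul_le_mul_of_nonneg_left hx1 hε₀.le
    have h15 : ε₀ * (a / 2 * ct) = g / 2 := by rw [hg]; ring
    linarith
  linarith

/-- **Main theorem.** Let `f` be a polynomial of degree at least `1` with integer coefficients, `ω > 0`, `B ≥ 1` and `ε > 0`.

(1) There are `η, δ > 0` and `m₀` such that for all `m ≥ m₀`, all families with `Small m ω s u` and all integers `z` with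
`|z| ≤ m ^ B` all but at most `m ^ (-δ) #s` of the integers `n = z + u i` (`0 ≤ u i < m` the least residue) have the following
property: if `v = f n` is positive and odd, there is a `j` such that `w = C^j(v)` satisfies `1 < w ≤ v ^ (1 - η)`,
`h(v) = j + h(w)` (both may be infinite) and `|j - 2 / log (16 / 9) · log (v / w)| ≤ ε log (v / w)`.

(2) `Small p ω` holds for every prime `p`, every `d`, all sets `A`, `A'` of vectors modulo `p` with
`#A #A' ≥ p ^ (d + 2 ω)`, every invertible matrix `Q` and arbitrary functions `f₁`, `f₂`, for the family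
`x · Q y + f₁(x) + f₂(y)`, `x ∈ A`, `y ∈ A'`. -/
theorem result (f : ℤ[X]) (hf : 1 ≤ f.natDegree) (ω : ℝ) (hω : 0 < ω) (B : ℝ) (hB : 1 ≤ B) (ε : ℝ) (hε : 0 < ε) :
    (∃ η δ : ℝ, 0 < η ∧ 0 < δ ∧ ∃ m₀ : ℕ, ∀ (m : ℕ) [NeZero m], m₀ ≤ m →
      ∀ (ι : Type) (s : Finset ι) (u : ι → ZMod m), Small m ω s u → ∀ z : ℤ, |(z : ℝ)| ≤ (m : ℝ) ^ B →
      (exceptions s (fun i => z + ((u i).val : ℤ)) (fun n => ∀ v : ℕ, Odd v → f.eval n = v → ∃ j w : ℕ,
        w = C^[j] v ∧ 1 < w ∧ (w : ℝ) ≤ (v : ℝ) ^ (1 - η) ∧ height v = (j : ℕ∞) + height w ∧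
        |(j : ℝ) - 2 / Real.log (16 / 9) * Real.log (v / w)| ≤ ε * Real.log (v / w)) : ℝ) ≤ (m : ℝ) ^ (-δ) * s.card) ∧
    (∀ (p : ℕ) [Fact p.Prime] (d : ℕ) (A A' : Finset (Fin d → ZMod p)) (Q : Matrix (Fin d) (Fin d) (ZMod p)),
      IsUnit Q.det → (p : ℝ) ^ (d + 2 * ω) ≤ A.card * A'.card → ∀ f₁ f₂ : (Fin d → ZMod p) → ZMod p,
      Small p ω (A ×ˢ A') (fun z => z.1 ⬝ᵥ Q.mulVec z.2 + f₁ z.1 + f₂ z.2)) := by
  refine ⟨?_, ?_⟩
  swap
  · intro p _ d A A' Q hQ hN f₁ f₂ b hb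
    exact Pool.Agent.V11113.MR.bil_small ω p d A A' Q hQ f₁ f₂ hN b hb
  have hc : Nat.Coprime 3 2 := by norm_num
  have hr : ∀ j : ℤ, 1 ≤ j → j < (2 : ℕ) → ((2 : ℕ) : ℤ) ∣ ((3 : ℕ) : ℤ) * j - (fun _ : ℤ => (-1 : ℤ)) j := by
    intro j h1 h2
    push_cast at h2 ⊢
    have hj : j = 1 := by omega
    rw [hj]
    norm_num
  have D := Mo.data (r := fun _ => (-1 : ℤ)) (le_refl 2) hc hr
  have hC := Mo.cls (m := 3) (r := fun _ => (-1 : ℤ)) (le_refl 2)
  have hTT : (Pool.Agent.H319R2.Leigh.gm D).T = Mo.T 2 3 (fun _ => -1) := by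
    rw [Pool.Agent.H319R2.Leigh.gm_T, Mo.T_eq]
  have hmu := Mo.mu_eq (le_refl 2) D
  obtain ⟨l2, hl2d⟩ : ∃ l2, l2 = Real.log 2 := ⟨_, rfl⟩
  obtain ⟨l3, hl3d⟩ : ∃ l3, l3 = Real.log 3 := ⟨_, rfl⟩
  have hl2 : 0 < l2 := by rw [hl2d]; exact Real.log_pos (by norm_num)
  have hl2' : l2 ≤ 1 := by rw [hl2d]; have := Real.log_two_lt_d9; linarith
  have hl3 : 1 ≤ l3 := by
    rw [hl3d, Real.le_log_iff_exp_le (by norm_num)]
    have := Real.exp_one_lt_d9
    linarith
  obtain ⟨a, ha⟩ : ∃ a, a = l2 - l3 / 2 := ⟨_, rfl⟩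
  have ha0 : 0 < a := by
    have h2 : l3 < 2 * l2 := by
      have : (2 : ℝ) * l2 = Real.log 4 := by
        rw [hl2d, show (4 : ℝ) = 2 ^ 2 by norm_num, Real.log_pow]
        norm_num
      rw [this, hl3d]
      exact Real.log_lt_log (by norm_num) (by norm_num)
    rw [ha]
    linarith
  have ha2 : a ≤ 1 / 2 := by
    rw [ha]
    linarith
  have hμ : mu (Pool.Agent.H319R2.Leigh.gm D) (Mo.CC 2) (fun _ => 1 / ((2 : ℕ) : ℝ)) = -a := by
    rw [hmu, ha, hl2d, hl3d]
    push_cast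
    ring
  have h169 : 2 / Real.log (16 / 9) = 1 / (2 * a) := by
    have h1 : Real.log (16 / 9) = 4 * a := by
      rw [Real.log_div (by norm_num) (by norm_num), show (16 : ℝ) = 2 ^ 4 by norm_num, show (9 : ℝ) = 3 ^ 2 by norm_num,
        Real.log_pow, Real.log_pow, ha, hl2d, hl3d]
      push_cast
      ring
    rw [h1]
    field_simp
    norm_num
  obtain ⟨ε₀, hε₀⟩ : ∃ ε₀, ε₀ = min ε 1 := ⟨_, rfl⟩
  have hε₀0 : 0 < ε₀ := by rw [hε₀]; exact lt_min hε one_pos
  have hε₀1 : ε₀ ≤ 1 := by rw [hε₀]; exact min_le_right _ _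
  have hε₀ε : ε₀ ≤ ε := by rw [hε₀]; exact min_le_left _ _
  obtain ⟨e, he⟩ : ∃ e, e = ε₀ * a ^ 2 / 20 := ⟨_, rfl⟩
  have he0 : 0 < e := by rw [he]; positivity
  have he1 : e ≤ 1 := by
    rw [he]
    have : ε₀ * a ^ 2 ≤ 1 * 1 := mul_le_mul hε₀1 (by nlinarith) (by positivity) (by norm_num)
    linarith
  obtain ⟨c, δ, hc0, hδ, t₀, h⟩ := Pool.Agent.V11113.CT.traj_exp (Pool.Agent.H319R2.Leigh.gm_fac D)
    (Pool.Agent.H319R2.Leigh.gm_cls D hC) hf hω he0 4
  rw [hμ] at h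
  obtain ⟨B', hB', t₁, h'⟩ := Pool.Agent.V11113.CT.size_up f c hc0 (B + 1) (by linarith)
  have hev : ∀ᶠ t : ℝ in atTop, 20 / (ε₀ * a) ≤ c * t ∧ t₀ ≤ t ∧ t₁ ≤ t ∧ 0 ≤ t := by
    have h1 : Tendsto (fun t : ℝ => c * t) atTop atTop := tendsto_id.const_mul_atTop hc0
    filter_upwards [h1.eventually (eventually_ge_atTop _), eventually_ge_atTop t₀, eventually_ge_atTop t₁,
      eventually_ge_atTop 0] with t a1 a2 a3 a4
    exact ⟨a1, a2, a3, a4⟩
  obtain ⟨t₂, ht₂⟩ := eventually_atTop.1 hev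
  refine ⟨(a / 2 * c) / B', δ, by positivity, hδ, max 2 ⌈Real.exp t₂⌉₊, fun m _ hm ι s u hsum z hz => ?_⟩
  have hm2 : 2 ≤ m := (le_max_left _ _).trans hm
  have hm0 : (0 : ℝ) < m := by exact_mod_cast (by omega : 0 < m)
  have htm : t₂ ≤ Real.log m := by
    rw [Real.le_log_iff_exp_le hm0]
    exact (Nat.le_ceil _).trans (Nat.cast_le.2 ((le_max_right _ _).trans hm))
  have hconv : (m : ℝ) ^ (-δ) = Real.exp (-(δ * Real.log m)) := by
    rw [Real.rpow_def_of_pos hm0]
    congr 1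
    ring
  rw [hconv]
  obtain ⟨t, ht⟩ : ∃ t, t = Real.log m := ⟨_, rfl⟩
  rw [← ht] at htm ⊢
  obtain ⟨hct, ht1, ht2, ht0⟩ := ht₂ t htm
  apply exceptions_le
  intro A hA hE
  refine h m t ht ht1 s u hsum z A hA (fun S hS => ⟨Mo.mem_S (le_refl 2) _, ?_⟩)
  rintro ⟨h1, h2⟩
  apply hE S hS
  intro v hvodd hfv
  have hv : 1 ≤ v := hvodd.pos
  have h5 := Pool.Agent.V11113.CT.member_size hB m hm2 z hz (u S)
  rw [← ht] at h5
  have hct0 : 0 ≤ c * t := by positivity
  have h1' : Real.exp (c * t) ≤ |((f.eval (z + ((u S).val : ℤ)) : ℤ) : ℝ)| := by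
    refine le_trans ?_ h1
    rw [← Real.exp_mul]
    apply Real.exp_le_exp.2
    linarith
  have h6 := h' t ht2 _ h5 h1'
  rw [hfv] at h1 h2 h6
  have hv1 : (1 : ℝ) ≤ v := by exact_mod_cast hv
  have hv0 : (0 : ℝ) < v := by linarith
  have hvabs : |((v : ℤ) : ℝ)| = v := by
    rw [Int.cast_natCast]
    exact abs_of_nonneg (by linarith)
  rw [hvabs, ← Real.exp_mul] at h1
  rw [hvabs] at h6
  have hlv : c * t * 4 ≤ Real.log v := by
    rw [Real.le_log_iff_exp_le hv0]
    exact h1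
  obtain ⟨k, hk⟩ : ∃ k, k = ⌊c * t / l2⌋₊ := ⟨_, rfl⟩
  have hfl : (k : ℝ) ≤ c * t / l2 := by rw [hk]; exact Nat.floor_le (by positivity)
  have hfl2 : c * t / l2 < k + 1 := by rw [hk]; exact Nat.lt_floor_add_one _
  have hkl : (k : ℝ) * l2 ≤ c * t := by rwa [le_div_iff₀ hl2] at hfl
  have hkl2 : c * t < (k + 1) * l2 := by rwa [div_lt_iff₀ hl2] at hfl2
  have hgd : ((Pool.Agent.H319R2.Leigh.gm D).d : ℝ) = 2 := rfl
  have hpow : ∀ r : ℕ, (2 : ℝ) ^ r = Real.exp (r * l2) := by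
    intro r
    rw [Real.exp_nat_mul, hl2d, Real.exp_log (by norm_num)]
  -- the law
  have hstep : ∀ r ≤ k, 0 < ((T^[r] v : ℕ) : ℝ) ∧ Real.log v - r * a - c * t * e ≤ Real.log ((T^[r] v : ℕ) : ℝ) ∧
      Real.log ((T^[r] v : ℕ) : ℝ) ≤ Real.log v - r * a + c * t * e := by
    intro r hr
    have h7 : (r : ℝ) * l2 ≤ c * t := by
      have : (r : ℝ) ≤ k := by exact_mod_cast hr
      have := mul_le_mul_of_nonneg_right this hl2.le
      linarith
    have h8 := h2 r (by
      rw [hgd, hpow]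
      exact Real.exp_le_exp.2 h7)
    rw [hTT, ← iter_cast, hvabs, Int.cast_natCast, abs_of_nonneg (Nat.cast_nonneg _), ← Real.exp_mul, ← Real.exp_mul,
      ← Real.exp_add, ← Real.exp_add] at h8
    obtain ⟨h9, h10⟩ := h8
    have hTpos : 0 < ((T^[r] v : ℕ) : ℝ) := lt_of_lt_of_le (by positivity) h9
    refine ⟨hTpos, ?_, ?_⟩
    · have h11 := Real.log_le_log (by positivity) h9
      rw [Real.log_mul (by positivity) hv0.ne', Real.log_exp] at h11
      linarith
    · have h11 := Real.log_le_log hTpos h10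
      rw [Real.log_mul (by positivity) hv0.ne', Real.log_exp] at h11
      linarith
  obtain ⟨i, j, w, hik, hwi, hwj, hw, hlo, hup, hor⟩ := track v (Nat.odd_iff.1 hvodd) k
  have hikr : (i : ℝ) ≤ k := by exact_mod_cast hik
  obtain ⟨hw0, hw1, hw2⟩ := hstep i hik
  rw [← hwi] at hw0 hw1 hw2
  obtain ⟨hk0, hk1, hk2⟩ := hstep k le_rfl
  have hi0 : (0 : ℝ) ≤ i := Nat.cast_nonneg _
  have hae : (i : ℝ) * a ≤ c * t := by
    have e1 : (i : ℝ) * a ≤ i * l2 := mul_le_mul_of_nonneg_left (by rw [ha]; linarith) hi0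
    have e2 : (i : ℝ) * l2 ≤ k * l2 := mul_le_mul_of_nonneg_right hikr hl2.le
    linarith
  have hcte : c * t * e ≤ c * t := mul_le_of_le_one_right hct0 he1
  have hea : ε₀ * a ≤ 1 := by
    have : ε₀ * a ≤ 1 * (1 / 2) := mul_le_mul hε₀1 ha2 ha0.le (by norm_num)
    linarith only [this]
  have hct1 : 1 ≤ c * t := by
    refine le_trans ?_ hct
    rw [le_div_iff₀ (by positivity)]
    linarith only [hea]
  -- `w` is large
  have hwbig : c * t * 2 ≤ Real.log w := by linarith only [hw1, hlv, hae, hcte]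
  -- the last odd term is close to the end
  have hki : (k : ℝ) * l2 - c * t * e - k * a ≤ 2 * l2 + (i * l2 + c * t * e - i * a) := by
    rcases hor with h7 | ⟨h7, h8, h9⟩
    · rw [h7]
      have : 0 ≤ c * t * e := by positivity
      linarith
    · have h10 : (2 : ℝ) ^ (k - i) * ((T^[k] v : ℕ) : ℝ) ≤ 4 * w := by
        have h11 : 2 ^ (k - i) * T^[k] v ≤ 4 * w := by
          rw [h9]
          omega
        exact_mod_cast h11
      have h12 := Real.log_le_log (by positivity) h10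
      rw [Real.log_mul (by positivity) hk0.ne', Real.log_mul (by norm_num) hw0.ne', Real.log_pow, ← hl2d,
        show (4 : ℝ) = 2 ^ 2 by norm_num, Real.log_pow, ← hl2d, Nat.cast_sub hik] at h12
      push_cast at h12
      rw [sub_mul] at h12
      linarith only [h12, hk1, hw2]
  -- the exponents of `3`
  have hj1 : (j : ℝ) * l3 + Real.log v ≤ i * l2 + Real.log w := by
    have h7 : (3 : ℝ) ^ j * v ≤ 2 ^ i * w := by exact_mod_cast hlo
    have h8 := Real.log_le_log (by positivity) h7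
    rwa [Real.log_mul (by positivity) hv0.ne', Real.log_mul (by positivity) hw0.ne', Real.log_pow, Real.log_pow, ← hl2d,
      ← hl3d] at h8
  have hj2 : (i : ℝ) * l2 + Real.log w ≤ l2 + (j * l3 + Real.log v) := by
    have h7 : (2 : ℝ) ^ i * w + 2 ^ i ≤ 3 ^ j * v + 3 ^ i := by exact_mod_cast hup
    have h8 : 2 * (3 : ℝ) ^ i ≤ 2 ^ i * w := by
      have e1 : (3 : ℝ) ^ i ≤ 2 ^ i * 2 ^ i := by
        rw [← mul_pow]
        exact pow_le_pow_left₀ (by norm_num) (by norm_num) i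
      have e2 : 2 * (2 : ℝ) ^ i ≤ w := by
        have e3 : Real.log (2 * (2 : ℝ) ^ i) ≤ Real.log w := by
          rw [Real.log_mul (by norm_num) (by positivity), Real.log_pow, ← hl2d]
          have e4 : (i : ℝ) * l2 ≤ k * l2 := mul_le_mul_of_nonneg_right hikr hl2.le
          linarith only [e4, hkl, hwbig, hct1, hl2']
        exact (Real.log_le_log_iff (by positivity) hw0).1 e3
      calc 2 * (3 : ℝ) ^ i ≤ 2 * (2 ^ i * 2 ^ i) := by linarith
        _ = 2 ^ i * (2 * 2 ^ i) := by ring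
        _ ≤ 2 ^ i * w := mul_le_mul_of_nonneg_left e2 (by positivity)
    have h9 : (2 : ℝ) ^ i * w ≤ 2 * (3 ^ j * v) := by
      have : (0 : ℝ) < 2 ^ i := by positivity
      linarith
    have h10 := Real.log_le_log (by positivity) h9
    rwa [Real.log_mul (by positivity) hw0.ne', Real.log_mul (by norm_num) (by positivity), Real.log_mul (by positivity) hv0.ne',
      Real.log_pow, Real.log_pow, ← hl2d, ← hl3d] at h10
  have hxdef : Real.log ((v : ℝ) / w) = Real.log v - Real.log w := Real.log_div hv0.ne' hw0.ne'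
  obtain ⟨hx1, hx2⟩ := numbers hl2' hl3 ha ha0 hε₀0 hε₀1 he hct hkl2.le hki hi0 hikr hw1 hw2 hj1 hj2 hxdef
  have hw1' : 1 < w := by
    have e5 : 0 < Real.log w := by linarith only [hwbig, hct1]
    have e6 : (1 : ℝ) < w := by
      by_contra hcon
      rw [not_lt] at hcon
      have := Real.log_nonpos hw0.le hcon
      linarith
    exact_mod_cast e6
  refine ⟨j, w, hwj, hw1', ?_, height_eq hwj (by omega), ?_⟩
  · have e7 : (w : ℝ) ≤ Real.exp (-((a / 2 * c) * t)) * v := by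
      have e8 : Real.log w ≤ Real.log (Real.exp (-((a / 2 * c) * t)) * v) := by
        rw [Real.log_mul (by positivity) hv0.ne', Real.log_exp]
        rw [hxdef] at hx1
        linarith
      exact (Real.log_le_log_iff hw0 (by positivity)).1 e8
    exact e7.trans (Pool.Agent.V11113.CT.exp_to_pow (by positivity) hB' hv0 h6).1
  · rw [h169]
    have e9 : 1 / (2 * a) * Real.log ((v : ℝ) / w) = Real.log ((v : ℝ) / w) / (2 * a) := by ring
    rw [e9]
    have hx0 : 0 ≤ Real.log ((v : ℝ) / w) := le_trans (by positivity) hx1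
    exact hx2.trans (mul_le_mul_of_nonneg_right hε₀ε hx0)

end Pool.Agent.Results.MP_2b866c_nt.ThinFamilies
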