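import Mathlib
import Pool.Agent.V11311.ER.Y3

set_option autoImplicit false

/-!
Any two long blocks of two typical trajectories are uncorrelated.
-/

namespace Pool.Agent.Results.MP_2b866c_nt.UncorrelatedBlocks

open Filter Topology Finset

/-- the `3x+1` function -/
def T (n : ℕ) : ℕ := if n % 2 = 0 then n / 2 else (3 * n + 1) / 2

/-- the proportion of the pairs `n, m ≤ N` of positive integers with the property `P N n m` tends to `1` -/
def AlmostAllPairs (P : ℕ → ℕ → ℕ → Prop) : Prop :=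
  Tendsto (fun N : ℕ => ({p : ℕ × ℕ | 1 ≤ p.1 ∧ p.1 ≤ N ∧ 1 ≤ p.2 ∧ p.2 ≤ N ∧ P N p.1 p.2}.ncard : ℝ) / (N : ℝ) ^ 2)
    atTop (𝓝 1)

/-- the number of the `j < w` with `T^[s + j] n ≡ a` and `T^[t + j] m ≡ b` modulo `2 ^ k` -/
def count (k a b n m s t w : ℕ) : ℕ :=
  ((range w).filter (fun j => T^[s + j] n % 2 ^ k = a ∧ T^[t + j] m % 2 ^ k = b)).card

open Pool.Agent.V11311.RC Pool.Agent.V11311.FP Pool.Agent.V11311.ER

theorem T_eq : T = Pool.Agent.Helper894.Collatz.T := rfl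

theorem lv_lt (κ : ℝ) (N z : ℕ) : Lv κ N < z ↔ (N : ℝ) ^ κ < z := by
  unfold Lv
  exact Nat.floor_lt (by positivity)

theorem count_eq (k a b n m s t w : ℕ) :
    (count k a b n m s t w : ℝ) = ∑ j ∈ range w, ind (Cr k a) (T^[s + j] n) * ind (Cr k b) (T^[t + j] m) := by
  unfold count
  rw [card_filter]
  push_cast
  apply sum_congr rfl
  intro j _
  by_cases h1 : T^[s + j] n % 2 ^ k = a
  · by_cases h2 : T^[t + j] m % 2 ^ k = b
    · rw [if_pos ⟨h1, h2⟩, ind_pos (A := Cr k a) h1, ind_pos (A := Cr k b) h2, mul_one]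
    · rw [if_neg (fun h => h2 h.2), ind_neg (A := Cr k b) h2, mul_zero]
  · rw [if_neg (fun h => h1 h.1), ind_neg (A := Cr k a) h1, zero_mul]

theorem PD_mono {P P' : ℕ → ℕ → ℕ → Prop} (h : PD P) (hP : ∀ N n m, P N n m → P' N n m) : PD P' := by
  classical
  intro ε hε
  filter_upwards [h ε hε] with N hN
  refine le_trans (sum_le_sum fun m _ => ?_) hN
  have h1 : cN (fun n => ¬ P' N n m) N ≤ cN (fun n => ¬ P N n m) N :=
    cN_mono (fun n _ hn h' => hn (hP N n m h')) N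
  exact_mod_cast h1

/-- the condition on the pair `n, m` -/
theorem main (k : ℕ) (hk : 1 ≤ k) (δ : ℝ) (hδ : 0 < δ) : ∃ C : ℝ, 0 < C ∧ ∀ κ : ℝ, 0 < κ →
    PD (fun N n m => ∀ s t w : ℕ, C * Real.log (Real.log N) ≤ w →
      (∀ s', s' < s + w → (N : ℝ) ^ κ < T^[s'] n) → (∀ t', t' < t + w → (N : ℝ) ^ κ < T^[t'] m) →
        ∀ a b, a < 2 ^ k → b < 2 ^ k → |(count k a b n m s t w : ℝ) - w / 4 ^ k| ≤ δ * w) := by
  obtain ⟨C, hC, h⟩ := pair_law (k := k) hk (δ := min δ 1) (lt_min hδ one_pos) (min_le_right _ _)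
  refine ⟨C, hC, fun κ hκ => ?_⟩
  apply PD_mono (h κ hκ)
  intro N n m hP s t w hw hs ht a b ha hb
  rw [count_eq]
  rw [T_eq] at hs ht ⊢
  have h1 := hP s t w hw (fun s' hs' => (lv_lt κ N _).2 (hs s' hs')) (fun t' ht' => (lv_lt κ N _).2 (ht t' ht')) a ha b hb
  refine h1.trans ?_
  exact mul_le_mul_of_nonneg_right (min_le_left _ _) (Nat.cast_nonneg w)

/-- **any two blocks of `w ≥ C log log N` terms of two typical trajectories are uncorrelated** -/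
theorem result (k : ℕ) (hk : 1 ≤ k) (δ : ℝ) (hδ : 0 < δ) : ∃ C : ℝ, 0 < C ∧ ∀ κ : ℝ, 0 < κ →
    AlmostAllPairs (fun N n m => ∀ s t w : ℕ, C * Real.log (Real.log N) ≤ w →
      (∀ s', s' < s + w → (N : ℝ) ^ κ < T^[s'] n) → (∀ t', t' < t + w → (N : ℝ) ^ κ < T^[t'] m) →
        ∀ a b, a < 2 ^ k → b < 2 ^ k → |(count k a b n m s t w : ℝ) - w / 4 ^ k| ≤ δ * w) := by
  obtain ⟨C, hC, h⟩ := main k hk δ hδ
  refine ⟨C, hC, fun κ hκ => ?_⟩
  have h2 := PD_tendsto (h κ hκ)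
  exact h2

end Pool.Agent.Results.MP_2b866c_nt.UncorrelatedBlocks
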